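import Pool.Agent.Q78.BB.Stm
import Pool.Agent.Q129.BA.J

/-!
# Project BB (helper78), job K5: the integral of the modulus of the kernel
-/

set_option autoImplicit false

open MeasureTheory Set Filter Topology
open scoped BigOperators ENNReal

namespace Pool.Agent.Q129.BB

open Pool.Agent.Q78.BB Pool.Agent.Q276.BA
open Pool.Agent.Q190.BA (rat sumc a3' a4' pp_continuous)
open Pool.Agent.Q129.BA (shift asc)

theorem mom_gen (b N k : ℕ) : ∫ w in (0 : ℝ)..1, w ^ k * pp b N w =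
    ∑ l ∈ Finset.range N, cc b N l / ((k : ℝ) + l + 1) := by
  have e : ∀ w : ℝ, w ^ k * pp b N w = ∑ l ∈ Finset.range N, cc b N l * w ^ (k + l) := by
    intro w
    rw [pp, Finset.mul_sum]
    refine Finset.sum_congr rfl fun l _ => ?_
    rw [pow_add w k l]
    ring
  rw [intervalIntegral.integral_congr (g := fun w => ∑ l ∈ Finset.range N, cc b N l * w ^ (k + l))
    (fun w _ => e w), intervalIntegral.integral_finsetSum fun l _ =>
      (Continuous.intervalIntegrable (by fun_prop) _ _)]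
  refine Finset.sum_congr rfl fun l _ => ?_
  rw [intervalIntegral.integral_const_mul, integral_pow]
  push_cast
  rw [one_pow, zero_pow (by omega), sub_zero]
  ring

theorem int_R (b N c : ℕ) : ∫ v in (0 : ℝ)..1, v ^ c * (pp b N v) ^ 2 =
    ∑ i ∈ Finset.range N, cc b N i *
      (∑ l ∈ Finset.range N, cc b N l / (((c + i : ℕ) : ℝ) + l + 1)) := by
  have hp := pp_continuous b N
  have e : ∀ v ∈ Set.uIcc (0 : ℝ) 1, v ^ c * (pp b N v) ^ 2 =
      ∑ i ∈ Finset.range N, cc b N i * (v ^ (c + i) * pp b N v) := by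
    intro v _
    have h5 : pp b N v = ∑ i ∈ Finset.range N, cc b N i * v ^ i := rfl
    calc v ^ c * (pp b N v) ^ 2 =
        (v ^ c * pp b N v) * ∑ i ∈ Finset.range N, cc b N i * v ^ i := by rw [← h5]; ring
      _ = _ := by
        rw [Finset.mul_sum]
        refine Finset.sum_congr rfl fun i _ => ?_
        rw [pow_add v c i]
        ring
  rw [intervalIntegral.integral_congr e,
    intervalIntegral.integral_finsetSum fun l _ => (Continuous.intervalIntegrable (by fun_prop) _ _)]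
  refine Finset.sum_congr rfl fun i _ => ?_
  rw [intervalIntegral.integral_const_mul, mom_gen]

theorem neg_prod (N : ℕ) : ∏ s ∈ Finset.range N, ((-1 : ℝ) - s) = (-1) ^ N * (N.factorial : ℝ) := by
  have e1 : ∀ s ∈ Finset.range N, ((-1 : ℝ) - s) = (-1) * ((s + 1 : ℕ) : ℝ) := by
    intro s _
    push_cast
    ring
  rw [Finset.prod_congr rfl e1, Finset.prod_mul_distrib, Finset.prod_const, Finset.card_range,
    ← Nat.cast_prod, Finset.prod_range_add_one_eq_factorial]

/-- the first term -/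
theorem first_term (c m : ℕ) : cc (c + 1) (m + 1) 0 *
    ((∏ s ∈ Finset.range (m + 1), ((-1 : ℝ) - s)) /
      ∏ l ∈ Finset.range (m + 1), ((-1 : ℝ) + ((c + 1 : ℕ) : ℝ) + l + 1)) =
    ((m : ℝ) + 1) * (m + 1 + (c + 1)) / (c + 1) := by
  rw [neg_prod]
  have hc0 : cc (c + 1) (m + 1) 0 = (-1) ^ (m + 1) * ((m : ℝ) + 1) * ((c + 1 + (m + 1)).choose (m + 1) : ℝ) := by
    unfold cc
    rw [add_zero, Nat.choose_zero_right, show m + 1 + (c + 1) + 0 = c + 1 + (m + 1) by omega]
    push_cast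
    ring
  rw [hc0]
  have h0 := asc (c + 1) (m + 1)
  have h1 := shift ((c : ℝ) + 1) (m + 1)
  have e0 : ∏ l ∈ Finset.range (m + 1), (((c + 1 : ℕ) : ℝ) + 1 + l) =
      ∏ l ∈ Finset.range (m + 1), ((c : ℝ) + 1 + l + 1) :=
    Finset.prod_congr rfl fun l _ => by push_cast; ring
  have e1 : ∏ l ∈ Finset.range (m + 1), ((-1 : ℝ) + ((c + 1 : ℕ) : ℝ) + l + 1) =
      ∏ l ∈ Finset.range (m + 1), ((c : ℝ) + 1 + l) :=
    Finset.prod_congr rfl fun l _ => by push_cast; ring
  rw [e0] at h0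
  rw [e1]
  have p1 : 0 < ∏ l ∈ Finset.range (m + 1), ((c : ℝ) + 1 + l) := Finset.prod_pos fun l _ => by positivity
  set P0 := ∏ l ∈ Finset.range (m + 1), ((c : ℝ) + 1 + l + 1)
  set P1 := ∏ l ∈ Finset.range (m + 1), ((c : ℝ) + 1 + l)
  set C := ((c + 1 + (m + 1)).choose (m + 1) : ℝ)
  set W := ((m + 1).factorial : ℝ)
  push_cast at h1
  have hs : ((-1 : ℝ) ^ (m + 1)) * (-1) ^ (m + 1) = 1 := by rw [← mul_pow]; norm_num
  have d1 : (0 : ℝ) < (c : ℝ) + 1 := by positivity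
  rw [mul_div_assoc', div_eq_div_iff p1.ne' d1.ne']
  linear_combination ((m : ℝ) + 1) * C * W * (c + 1) * hs + ((m : ℝ) + 1) * (c + 1) * h0 +
    ((m : ℝ) + 1) * h1

theorem int_R_eq (c m : ℕ) : ∫ v in (0 : ℝ)..1, v ^ c * (pp (c + 1) (m + 1) v) ^ 2 =
    ((m : ℝ) + 1) * (m + 1 + (c + 1)) + ((m : ℝ) + 1) * (m + 1 + (c + 1)) / (c + 1) := by
  rw [int_R]
  have hx : ∀ (i l : ℕ), (i : ℝ) - 1 + ((c + 1 : ℕ) : ℝ) + l + 1 = ((c + i : ℕ) : ℝ) + l + 1 := by
    intro i l
    push_cast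
    ring
  have e0 : ∀ i ∈ Finset.range (m + 1), cc (c + 1) (m + 1) i *
      (∑ l ∈ Finset.range (m + 1), cc (c + 1) (m + 1) l / (((c + i : ℕ) : ℝ) + l + 1)) =
      cc (c + 1) (m + 1) i * ((∏ s ∈ Finset.range (m + 1), ((i : ℝ) - 1 - s)) /
        ∏ l ∈ Finset.range (m + 1), ((i : ℝ) - 1 + ((c + 1 : ℕ) : ℝ) + l + 1)) - cc (c + 1) (m + 1) i := by
    intro i _
    have h := rat (c + 1) (m + 1) ((i : ℝ) - 1) (fun l _ => by rw [hx]; positivity)
    have e : ∑ l ∈ Finset.range (m + 1), cc (c + 1) (m + 1) l / (((c + i : ℕ) : ℝ) + l + 1) =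
        ∑ l ∈ Finset.range (m + 1), cc (c + 1) (m + 1) l / ((i : ℝ) - 1 + ((c + 1 : ℕ) : ℝ) + l + 1) :=
      Finset.sum_congr rfl fun l _ => by rw [hx]
    rw [e, ← h]
    ring
  rw [Finset.sum_congr rfl e0, Finset.sum_sub_distrib, sumc, Finset.sum_range_succ']
  have h2 : ∀ i ∈ Finset.range m, cc (c + 1) (m + 1) (i + 1) *
      ((∏ s ∈ Finset.range (m + 1), (((i + 1 : ℕ) : ℝ) - 1 - s)) /
        ∏ l ∈ Finset.range (m + 1), (((i + 1 : ℕ) : ℝ) - 1 + ((c + 1 : ℕ) : ℝ) + l + 1)) = 0 := by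
    intro i hi
    rw [Finset.prod_eq_zero (Finset.mem_range.2 (show i < m + 1 by have := Finset.mem_range.1 hi; omega))
      (by push_cast; ring)]
    simp
  rw [Finset.sum_eq_zero h2, zero_add]
  have h3 := first_term c m
  rw [show ((0 : ℕ) : ℝ) - 1 = -1 by norm_num, h3]
  push_cast
  ring

/-- the square of the kernel -/
theorem q_sq (c m : ℕ) {v : ℝ} (hv : 0 ≤ v) :
    (qq (c + 1) (m + 1) v) ^ 2 = v * (v ^ c * (pp (c + 1) (m + 1) v) ^ 2) := by
  have h1 : Real.sqrt v ^ (c + 1) * Real.sqrt v ^ (c + 1) = v ^ (c + 1) := by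
    rw [← mul_pow, Real.mul_self_sqrt hv]
  unfold qq
  have h2 : v * (v ^ c * (pp (c + 1) (m + 1) v) ^ 2) = v ^ (c + 1) * (pp (c + 1) (m + 1) v) ^ 2 := by
    rw [pow_succ]; ring
  rw [h2, ← h1]
  ring

/-- the denominator of the inverse of the weight -/
noncomputable def Dn (δ κ v : ℝ) : ℝ := δ * v + (1 - v) * v + κ * (1 - v) ^ 2

theorem Dn_pos {δ κ v : ℝ} (hδ : 0 < δ) (hκ : 0 < κ) (h0 : 0 ≤ v) (h1 : v ≤ 1) : 0 < Dn δ κ v := by
  unfold Dn
  rcases h0.eq_or_lt with h | h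
  · rw [← h]
    simpa using hκ
  · have h2 : 0 < δ * v := mul_pos hδ h
    have h3 : 0 ≤ (1 - v) * v := mul_nonneg (by linarith) h0
    have h4 : 0 ≤ κ * (1 - v) ^ 2 := by positivity
    linarith

theorem Dn_cont (δ κ : ℝ) : Continuous (Dn δ κ) := by
  unfold Dn
  fun_prop

/-- the integral of the inverse of the weight -/
theorem int_A {δ κ a : ℝ} (hδ : 0 < δ) (hκ : 0 < κ) (ha : 0 < a) (ha1 : a ≤ 1) :
    ∫ v in (0 : ℝ)..1, v / Dn δ κ v ≤ κ⁻¹ * (a⁻¹ - 1) + Real.log (1 + a / δ) := by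
  have hc : ∀ x y : ℝ, 0 ≤ x → x ≤ y → y ≤ 1 → IntervalIntegrable (fun v => v / Dn δ κ v) volume x y := by
    intro x y hx hxy hy
    refine ContinuousOn.intervalIntegrable ?_
    refine ContinuousOn.div continuousOn_id (Dn_cont δ κ).continuousOn ?_
    intro v hv
    rw [uIcc_of_le hxy] at hv
    exact (Dn_pos hδ hκ (hx.trans hv.1) (hv.2.trans hy)).ne'
  rw [← intervalIntegral.integral_add_adjacent_intervals (hc 0 (1 - a) le_rfl (by linarith) (by linarith))
    (hc (1 - a) 1 (by linarith) (by linarith) le_rfl)]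
  refine add_le_add ?_ ?_
  · have hd : ∀ v ∈ uIcc (0 : ℝ) (1 - a), HasDerivAt (fun v : ℝ => κ⁻¹ * (1 - v)⁻¹) (κ⁻¹ * ((1 - v) ^ 2)⁻¹) v := by
      intro v hv
      rw [uIcc_of_le (by linarith)] at hv
      have h1 : (1 - v) ≠ 0 := by have := hv.2; intro h; linarith
      have h2 : HasDerivAt (fun v : ℝ => 1 - v) (-1) v := by
        simpa using (hasDerivAt_id v).const_sub 1
      have h3 := (h2.inv h1).const_mul κ⁻¹
      have e : κ⁻¹ * (- -1 / (1 - v) ^ 2) = κ⁻¹ * ((1 - v) ^ 2)⁻¹ := by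
        rw [neg_neg, one_div]
      rw [e] at h3
      exact h3
    have hi : IntervalIntegrable (fun v : ℝ => κ⁻¹ * ((1 - v) ^ 2)⁻¹) volume 0 (1 - a) := by
      refine ContinuousOn.intervalIntegrable ?_
      refine ContinuousOn.mul continuousOn_const (ContinuousOn.inv₀ (by fun_prop) ?_)
      intro v hv
      rw [uIcc_of_le (by linarith)] at hv
      have h1 : (1 - v) ≠ 0 := by have := hv.2; intro h; linarith
      exact pow_ne_zero 2 h1
    have h4 := intervalIntegral.integral_eq_sub_of_hasDerivAt hd hi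
    have h5 : ∫ v in (0 : ℝ)..(1 - a), v / Dn δ κ v ≤ ∫ v in (0 : ℝ)..(1 - a), κ⁻¹ * ((1 - v) ^ 2)⁻¹ := by
      refine intervalIntegral.integral_mono_on (by linarith)
        (hc 0 (1 - a) le_rfl (by linarith) (by linarith)) hi ?_
      intro v hv
      have h6 : 0 < (1 - v) := by have := hv.2; linarith
      have h7 : 0 < κ * (1 - v) ^ 2 := by positivity
      rw [← mul_inv, ← one_div, div_le_div_iff₀ (Dn_pos hδ hκ hv.1 (by linarith)) h7]
      unfold Dn
      have h8 : v ≤ 1 := by linarith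
      have h9 : 0 ≤ δ * v := mul_nonneg hδ.le hv.1
      have h10 : 0 ≤ (1 - v) * v := mul_nonneg h6.le hv.1
      nlinarith
    refine h5.trans (le_of_eq ?_)
    rw [h4]
    simp only [sub_sub_cancel, sub_zero, inv_one]
    ring
  · have hd : ∀ v ∈ uIcc (1 - a) (1 : ℝ), HasDerivAt (fun v : ℝ => -Real.log (δ + (1 - v))) ((δ + (1 - v))⁻¹) v := by
      intro v hv
      rw [uIcc_of_le (by linarith)] at hv
      have h1 : δ + (1 - v) ≠ 0 := by have := hv.2; intro h; linarith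
      have h2 : HasDerivAt (fun v : ℝ => δ + (1 - v)) (-1) v := by
        simpa using ((hasDerivAt_id v).const_sub 1).const_add δ
      have h3 := (h2.log h1).neg
      have e : -(-1 / (δ + (1 - v))) = (δ + (1 - v))⁻¹ := by
        rw [neg_div, neg_neg, one_div]
      rw [e] at h3
      exact h3
    have hi : IntervalIntegrable (fun v : ℝ => (δ + (1 - v))⁻¹) volume (1 - a) 1 := by
      refine ContinuousOn.intervalIntegrable ?_
      refine ContinuousOn.inv₀ (by fun_prop) ?_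
      intro v hv
      rw [uIcc_of_le (by linarith)] at hv
      have := hv.2
      intro h
      linarith
    have h4 := intervalIntegral.integral_eq_sub_of_hasDerivAt hd hi
    have h5 : ∫ v in (1 - a)..(1 : ℝ), v / Dn δ κ v ≤ ∫ v in (1 - a)..(1 : ℝ), (δ + (1 - v))⁻¹ := by
      refine intervalIntegral.integral_mono_on (by linarith)
        (hc (1 - a) 1 (by linarith) (by linarith) le_rfl) hi ?_
      intro v hv
      have h0 : 0 ≤ v := by have := hv.1; linarith
      have h6 : 0 < δ + (1 - v) := by have := hv.2; linarith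
      rw [← one_div, div_le_div_iff₀ (Dn_pos hδ hκ h0 hv.2) h6]
      unfold Dn
      have h7 : 0 ≤ κ * (1 - v) ^ 2 := by positivity
      nlinarith
    refine h5.trans (le_of_eq ?_)
    rw [h4]
    simp only [sub_self, add_zero, sub_sub_cancel]
    have h8 : 1 + a / δ = (δ + a) / δ := by field_simp
    rw [h8, Real.log_div (by positivity) hδ.ne']
    ring

/-- the weighted integral of the square -/
theorem int_B (c m : ℕ) :
    ∫ v in (0 : ℝ)..1, Dn (1 / ((m : ℝ) + 1 + (c + 1))) (((c : ℝ) + 1) / (m + 1)) v *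
      (v ^ c * (pp (c + 1) (m + 1) v) ^ 2) ≤ 4 * ((m : ℝ) + 1) := by
  set δ : ℝ := 1 / ((m : ℝ) + 1 + (c + 1)) with hδ
  set κ : ℝ := ((c : ℝ) + 1) / (m + 1) with hκ
  have hp := pp_continuous (c + 1) (m + 1)
  have hq : Continuous (qq (c + 1) (m + 1)) := by
    unfold qq
    fun_prop
  have e : ∀ v ∈ Set.uIcc (0 : ℝ) 1, Dn δ κ v * (v ^ c * (pp (c + 1) (m + 1) v) ^ 2) =
      (δ * (qq (c + 1) (m + 1) v) ^ 2 + (1 - κ) * ((1 - v) * (qq (c + 1) (m + 1) v) ^ 2)) +
        κ * (v ^ c * (pp (c + 1) (m + 1) v) ^ 2 - (qq (c + 1) (m + 1) v) ^ 2) := by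
    intro v hv
    rw [uIcc_of_le zero_le_one] at hv
    rw [q_sq c m hv.1]
    unfold Dn
    ring
  have i1 : IntervalIntegrable (fun v => δ * (qq (c + 1) (m + 1) v) ^ 2) volume 0 1 :=
    Continuous.intervalIntegrable (by fun_prop) _ _
  have i2 : IntervalIntegrable (fun v => (1 - κ) * ((1 - v) * (qq (c + 1) (m + 1) v) ^ 2)) volume 0 1 :=
    Continuous.intervalIntegrable (by fun_prop) _ _
  have i3 : IntervalIntegrable (fun v => v ^ c * (pp (c + 1) (m + 1) v) ^ 2) volume 0 1 :=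
    Continuous.intervalIntegrable (by fun_prop) _ _
  have i4 : IntervalIntegrable (fun v => (qq (c + 1) (m + 1) v) ^ 2) volume 0 1 :=
    Continuous.intervalIntegrable (by fun_prop) _ _
  rw [intervalIntegral.integral_congr e, intervalIntegral.integral_add (i1.add i2) ((i3.sub i4).const_mul κ),
    intervalIntegral.integral_add i1 i2, intervalIntegral.integral_const_mul,
    intervalIntegral.integral_const_mul, intervalIntegral.integral_const_mul,
    intervalIntegral.integral_sub i3 i4, a3' (c + 1) (m + 1), a4' (c + 1) (m + 1), int_R_eq]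
  push_cast
  have d1 : (0 : ℝ) < (m : ℝ) + 1 + (c + 1) := by positivity
  have d2 : (0 : ℝ) < 2 * ((m : ℝ) + 1) + (c + 1) := by positivity
  have d3 : (0 : ℝ) < (c : ℝ) + 1 := by positivity
  have d4 : (0 : ℝ) < (m : ℝ) + 1 := by positivity
  have key : δ * (((m : ℝ) + 1) * (m + 1 + (c + 1))) +
      (1 - κ) * (((m : ℝ) + 1) * (m + 1 + (c + 1)) / (2 * (m + 1) + (c + 1))) +
      κ * (((m : ℝ) + 1) * (m + 1 + (c + 1)) + ((m : ℝ) + 1) * (m + 1 + (c + 1)) / (c + 1) -
        ((m : ℝ) + 1) * (m + 1 + (c + 1))) =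
      4 * ((m : ℝ) + 1) - 3 * ((m : ℝ) + 1) ^ 2 / (2 * (m + 1) + (c + 1)) := by
    rw [hδ, hκ]
    field_simp
    ring
  rw [key]
  have : 0 ≤ 3 * ((m : ℝ) + 1) ^ 2 / (2 * (m + 1) + (c + 1)) := by positivity
  linarith

/-- **K5** -/
theorem k5 : S_K5 := by
  intro b N hb hN
  obtain ⟨c, rfl⟩ : ∃ c, b = c + 1 := ⟨b - 1, by omega⟩
  obtain ⟨m, rfl⟩ : ∃ m, N = m + 1 := ⟨N - 1, by omega⟩
  set δ : ℝ := 1 / ((m : ℝ) + 1 + (c + 1)) with hδ
  set κ : ℝ := ((c : ℝ) + 1) / (m + 1) with hκ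
  have d3 : (0 : ℝ) < (c : ℝ) + 1 := by positivity
  have d4 : (0 : ℝ) < (m : ℝ) + 1 := by positivity
  have hδ0 : 0 < δ := by positivity
  have hκ0 : 0 < κ := by positivity
  set L : ℝ := 1 + Real.log (2 * ((m + 1 : ℕ) : ℝ) + 1) with hL
  have hlog : 0 ≤ Real.log (2 * ((m + 1 : ℕ) : ℝ) + 1) := Real.log_nonneg (by push_cast; linarith)
  have hL0 : 0 < L := by linarith
  have hA : ∫ v in (0 : ℝ)..1, v / Dn δ κ v ≤ L := by
    rcases le_or_gt (c : ℝ) (m : ℝ) with h | h
    · refine (int_A hδ0 hκ0 one_pos le_rfl).trans ?_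
      have h1 : 1 + 1 / δ ≤ 2 * ((m + 1 : ℕ) : ℝ) + 1 := by
        rw [hδ, one_div_one_div]
        push_cast
        linarith
      have h2 := Real.log_le_log (by positivity) h1
      rw [inv_one, sub_self, mul_zero, zero_add]
      linarith
    · have ha : 0 < κ⁻¹ := by positivity
      have ha1 : κ⁻¹ ≤ 1 := by
        rw [hκ, inv_div, div_le_one d3]
        linarith
      refine (int_A hδ0 hκ0 ha ha1).trans ?_
      rw [inv_inv]
      have h1 : 1 + κ⁻¹ / δ ≤ 2 * ((m + 1 : ℕ) : ℝ) + 1 := by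
        rw [hδ, hκ, inv_div, div_div_eq_mul_div, div_one]
        push_cast
        rw [div_mul_eq_mul_div]
        have : ((m : ℝ) + 1) * (m + 1 + (c + 1)) / (c + 1) ≤ 2 * (m + 1) := by
          rw [div_le_iff₀ d3]
          nlinarith
        linarith
      have h2 := Real.log_le_log (by positivity) h1
      have h3 : κ⁻¹ * (κ - 1) ≤ 1 := by
        rw [mul_sub, inv_mul_cancel₀ hκ0.ne']
        linarith
      linarith
  have hB := int_B c m
  rw [← hδ, ← hκ] at hB
  set s : ℝ := 2 * Real.sqrt (((m + 1 : ℕ) : ℝ) * L) with hs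
  have hs0 : 0 < s := by positivity
  have hs2 : s * s = 4 * ((m : ℝ) + 1) * L := by
    have := Real.mul_self_sqrt (show 0 ≤ ((m + 1 : ℕ) : ℝ) * L by positivity)
    rw [hs]
    push_cast at this ⊢
    linear_combination 4 * this
  set τ : ℝ := s / L with hτ
  have hτ0 : 0 < τ := by positivity
  have hp := pp_continuous (c + 1) (m + 1)
  have hq : Continuous (qq (c + 1) (m + 1)) := by
    unfold qq
    fun_prop
  have i1 : IntervalIntegrable (fun v => v / Dn δ κ v) volume 0 1 := by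
    refine ContinuousOn.intervalIntegrable ?_
    refine ContinuousOn.div continuousOn_id (Dn_cont δ κ).continuousOn ?_
    intro v hv
    rw [uIcc_of_le zero_le_one] at hv
    exact (Dn_pos hδ0 hκ0 hv.1 hv.2).ne'
  have i2 : IntervalIntegrable (fun v => Dn δ κ v * (v ^ c * (pp (c + 1) (m + 1) v) ^ 2)) volume 0 1 := by
    have := Dn_cont δ κ
    exact Continuous.intervalIntegrable (by fun_prop) _ _
  have hmono : ∫ v in (0 : ℝ)..1, |qq (c + 1) (m + 1) v| ≤
      ∫ v in (0 : ℝ)..1, ((τ / 2) * (v / Dn δ κ v) +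
        (1 / (2 * τ)) * (Dn δ κ v * (v ^ c * (pp (c + 1) (m + 1) v) ^ 2))) := by
    refine intervalIntegral.integral_mono_on zero_le_one (hq.abs.intervalIntegrable _ _)
      ((i1.const_mul _).add (i2.const_mul _)) ?_
    intro v hv
    have hD := Dn_pos hδ0 hκ0 hv.1 hv.2
    have hsq := q_sq c m hv.1
    set R := v ^ c * (pp (c + 1) (m + 1) v) ^ 2 with hR
    have hR0 : 0 ≤ R := mul_nonneg (pow_nonneg hv.1 c) (sq_nonneg _)
    have hv0 : 0 ≤ v := hv.1
    have hX : 0 ≤ (τ / 2) * (v / Dn δ κ v) + (1 / (2 * τ)) * (Dn δ κ v * R) := by positivity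
    refine abs_le_of_sq_le_sq ?_ hX
    rw [hsq]
    have e1 : v * R = 4 * ((τ / 2) * (v / Dn δ κ v)) * ((1 / (2 * τ)) * (Dn δ κ v * R)) := by
      field_simp
      ring
    rw [e1]
    nlinarith [sq_nonneg ((τ / 2) * (v / Dn δ κ v) - (1 / (2 * τ)) * (Dn δ κ v * R))]
  rw [intervalIntegral.integral_add (i1.const_mul _) (i2.const_mul _), intervalIntegral.integral_const_mul,
    intervalIntegral.integral_const_mul] at hmono
  refine hmono.trans ?_
  have h1 : (τ / 2) * ∫ v in (0 : ℝ)..1, v / Dn δ κ v ≤ (τ / 2) * L :=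
    mul_le_mul_of_nonneg_left hA (by positivity)
  have h2 := mul_le_mul_of_nonneg_left hB (show 0 ≤ 1 / (2 * τ) by positivity)
  have h3 : (τ / 2) * L = s / 2 := by
    rw [hτ]
    field_simp
  have h4 : (1 / (2 * τ)) * (4 * ((m : ℝ) + 1)) = s / 2 := by
    have e : 1 / (2 * τ) = L / (2 * s) := by
      rw [hτ]
      field_simp
    rw [e, div_mul_eq_mul_div, div_eq_div_iff (by positivity) two_ne_zero]
    linear_combination -2 * hs2
  linarith

end Pool.Agent.Q129.BB
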